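import Pool.Agent.Q27.VS.Stm

/-! Project VS (helper27), job DATA. -/

set_option autoImplicit false

open Set Topology Filter

namespace Pool.Agent.Q27.VS

variable {X : Type} [TopologicalSpace X]

theorem data_comm {g h : X ≃ₜ X} {A B : Set X} (hg : Sup g A) (hh : Sup h B)
    (hd : Disjoint A B) : Commute g h := by
  have hd' := Set.disjoint_left.1 hd
  show g * h = h * g
  ext x
  rw [Homeomorph.mul_apply, Homeomorph.mul_apply]
  by_cases hxA : x ∈ A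
  · rw [hh x (hd' hxA), hh (g x) (hd' (hg.mem hxA))]
  · rw [hg x hxA]
    by_cases hxB : x ∈ B
    · exact hg _ (fun h' => hd' h' (hh.mem hxB))
    · rw [hh x hxB, hg x hxA]

theorem data_core {G : Subgroup (X ≃ₜ X)} (hV : Vig G) (hS : Simp G) (h1 : S_cycle X)
    (h2 : S_coprime) {Z : Type} [Fintype Z] (ℓ : Z → ℕ) (B₀ : Z → Set X)
    (w : Z → ℕ → (X ≃ₜ X)) (hodd : ∀ z, Odd (ℓ z)) (hcl : ∀ z, IsClopen (B₀ z))
    (hwG : ∀ z s, w z s ∈ G) (hcop : ∀ z z', z ≠ z' → Nat.Coprime (ℓ z) (ℓ z'))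
    (hdisj : ∀ z s z' s', s < ℓ z → s' < ℓ z' → (z = z' → s ≠ s') →
      Disjoint (w z s '' B₀ z) (w z' s' '' B₀ z')) :
    ∃ (c : Z → (X ≃ₜ X)) (σ : X ≃ₜ X), (∀ z, c z ∈ G) ∧ (∀ z, c z ^ ℓ z = 1) ∧
      (∀ z s, s < ℓ z → (c z ^ s) '' (w z 0 '' B₀ z) = w z s '' B₀ z) ∧
      (∀ z x, (∀ s < ℓ z, x ∉ w z s '' B₀ z) → c z x = x) ∧ σ ∈ G ∧
      ∀ z, c z ∈ Subgroup.zpowers σ := by
  classical
  have himg : ∀ z s, (w z s * (w z 0)⁻¹ : X ≃ₜ X) '' (w z 0 '' B₀ z) = w z s '' B₀ z := by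
    intro z s
    rw [image_image]
    refine image_congr fun x _ => ?_
    simp
  have hc : ∀ z, ∃ c ∈ G, c ^ ℓ z = 1 ∧ (∀ s < ℓ z, ∀ b ∈ w z 0 '' B₀ z, (c ^ s) b =
      (w z s * (w z 0)⁻¹ : X ≃ₜ X) b) ∧ ∀ x, (∀ s < ℓ z, x ∉ w z s '' B₀ z) → c x = x := by
    intro z
    obtain ⟨c, hcG, hc1, hc2, hc3⟩ := h1 G hV hS (ℓ z) (fun s => w z s * (w z 0)⁻¹)
      (w z 0 '' B₀ z) (hodd z) (image_clopen _ (hcl z))
      (fun s => G.mul_mem (hwG z s) (G.inv_mem (hwG z 0)))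
      (fun s hs t ht hst => by
        rw [himg, himg]; exact hdisj z s z t hs ht (fun _ => hst)) (mul_inv_cancel _)
    refine ⟨c, hcG, hc1, hc2, fun x hx => hc3 x (fun s hs => ?_)⟩
    rw [himg]; exact hx s hs
  choose c hcG hc1 hc2 hc3 using hc
  have hsup : ∀ z, Sup (c z) (⋃ s ∈ Finset.range (ℓ z), w z s '' B₀ z) := by
    intro z x hx
    apply hc3
    intro s hs hx'
    apply hx
    rw [mem_iUnion₂]
    exact ⟨s, Finset.mem_range.2 hs, hx'⟩
  have hcomm : ∀ z z', Commute (c z) (c z') := by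
    intro z z'
    by_cases h : z = z'
    · rw [h]
    · refine data_comm (hsup z) (hsup z') ?_
      rw [Set.disjoint_left]
      intro x hx hx'
      rw [mem_iUnion₂] at hx hx'
      obtain ⟨s, hs, hx⟩ := hx
      obtain ⟨s', hs', hx'⟩ := hx'
      exact Set.disjoint_left.1 (hdisj z s z' s' (Finset.mem_range.1 hs)
        (Finset.mem_range.1 hs') (fun h' => absurd h' h)) hx hx'
  obtain ⟨σ, hσ, hσ'⟩ := h2 (X ≃ₜ X) inferInstance Z Finset.univ c ℓ
    (fun i _ j _ => hcomm i j) (fun i _ => hc1 i) (fun i _ j _ hij => hcop i j hij)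
  refine ⟨c, σ, hcG, hc1, ?_, hc3, ?_, fun z => hσ' z (Finset.mem_univ z)⟩
  · intro z s hs
    rw [← himg z s]
    exact image_congr fun x hx => hc2 z s hs x hx
  · refine (Subgroup.closure_le G).2 ?_ hσ
    rintro _ ⟨z, _, rfl⟩
    exact hcG z

theorem data_place [CSp X] {G : Subgroup (X ≃ₜ X)} (hV : Vig G) {P : Set X} (hP : IsClopen P)
    (hPne : P ≠ univ) (hPn : P.Nonempty) {Z : Type} [Fintype Z] (o : Z) (L : ℕ) :
    ∃ (w : Z → ℕ → (X ≃ₜ X)), (∀ z s, w z s ∈ G) ∧ w o 0 = 1 ∧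
      (∀ z s z' s', s < L → s' < L → (z = z' → s ≠ s') →
        Disjoint (w z s '' P) (w z' s' '' P)) ∧
      ∃ x, ∀ z s, s < L → x ∉ w z s '' P := by
  classical
  have hPc : (Pᶜ).Nonempty := by
    by_contra h
    rw [not_nonempty_iff_eq_empty, compl_empty_iff] at h
    exact hPne h
  obtain ⟨Y, hY1, hY2, hY3, hY4, x, hxP, hxY⟩ := pieces (X := X)
    (Fintype.card (Z × Fin L)) hP.compl.isOpen hPc
  have hYne : ∀ i, Y i ≠ univ := by
    intro i h
    obtain ⟨y, hy⟩ := hPn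
    have : y ∈ Y i := h ▸ mem_univ y
    exact hY3 i this hy
  have hv : ∀ i, ∃ g ∈ G, g '' P ⊆ Y i := by
    intro i
    obtain ⟨g, hg, hg', _⟩ := hV univ P (Y i) isClopen_univ hP (hY1 i) (subset_univ _)
      (subset_univ _) hPn (hY2 i) hPne (hYne i)
    exact ⟨g, hg, hg'⟩
  choose v hvG hvY using hv
  obtain ⟨w, hw⟩ : ∃ w : Z → ℕ → (X ≃ₜ X), ∀ z s, w z s = if z = o ∧ s = 0 then 1 else
      if h : s < L then v (Fintype.equivFin (Z × Fin L) (z, ⟨s, h⟩)) else 1 :=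
    ⟨_, fun _ _ => rfl⟩
  have hw1 : ∀ z s, z = o ∧ s = 0 → w z s '' P = P := by
    intro z s h
    rw [hw, if_pos h]
    exact (Sup.one P).image
  have hw2 : ∀ z s (h : s < L), ¬ (z = o ∧ s = 0) →
      w z s '' P ⊆ Y (Fintype.equivFin (Z × Fin L) (z, ⟨s, h⟩)) := by
    intro z s h h'
    rw [hw, if_neg h', dif_pos h]
    exact hvY _
  refine ⟨w, ?_, ?_, ?_, x, ?_⟩
  · intro z s
    rw [hw]
    split_ifs
    · exact G.one_mem
    · exact hvG _
    · exact G.one_mem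
  · rw [hw, if_pos ⟨rfl, rfl⟩]
  · intro z s z' s' hs hs' hne
    by_cases h : z = o ∧ s = 0 <;> by_cases h' : z' = o ∧ s' = 0
    · exact absurd (h.2.trans h'.2.symm) (hne (h.1.trans h'.1.symm))
    · rw [hw1 z s h, Set.disjoint_left]
      intro y hy hy'
      exact hY3 _ (hw2 z' s' hs' h' hy') hy
    · rw [hw1 z' s' h', Set.disjoint_left]
      intro y hy' hy
      exact hY3 _ (hw2 z s hs h hy') hy
    · refine (hY4 _ _ ?_).mono (hw2 z s hs h) (hw2 z' s' hs' h')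
      intro heq
      have h5 := (Fintype.equivFin (Z × Fin L)).injective heq
      rw [Prod.mk.injEq, Fin.mk.injEq] at h5
      exact hne h5.1 h5.2
  · intro z s hs hx
    by_cases h : z = o ∧ s = 0
    · rw [hw1 z s h] at hx
      exact hxP hx
    · exact hxY (mem_iUnion.2 ⟨_, hw2 z s hs h hx⟩)

/-- regrouping of the index set -/
def data_cl {J : Type} : Option (J ⊕ Bool) → Option J ⊕ Bool
  | none => Sum.inl none
  | some (Sum.inl i) => Sum.inl (some i)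
  | some (Sum.inr b) => Sum.inr b

theorem data_cl_inj {J : Type} : Function.Injective (data_cl (J := J)) := by
  rintro (_ | i | b) (_ | j | b') h <;> simp_all [data_cl]

theorem data_cl_surj {J : Type} : Function.Surjective (data_cl (J := J)) := by
  rintro ((_ | i) | b)
  · exact ⟨none, rfl⟩
  · exact ⟨some (Sum.inl i), rfl⟩
  · exact ⟨some (Sum.inr b), rfl⟩

theorem data (X : Type) [TopologicalSpace X] [CSp X] (h0 : S_base X) (h1 : S_cycle X)
    (h2 : S_coprime) (h3 : S_balance X) (h4 : S_len) : S_data X := by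
  classical
  intro G hV hS hfg k
  obtain ⟨P, M, φ, A, hP, hPne, hPn, hφ, halt⟩ := h0 G hV hS hfg
  obtain ⟨ℓ', q, n, hL1, hL2, hL3, hL4, hL5, hL6, hL7, hL8, hL9, hL10⟩ :=
    h4 (Fintype.card (Option (Fin k × Fin M × Bool)))
      (Fintype.card (Fin k × Fin M × Bool) + k + 3)
  obtain ⟨ℓ₁, hℓ₁⟩ : ∃ ℓ₁ : Option (Fin k × Fin M × Bool) → ℕ,
      ∀ z, ℓ₁ z = ℓ' (Fintype.equivFin (Option (Fin k × Fin M × Bool)) z) := ⟨_, fun _ => rfl⟩
  obtain ⟨w, hwG, hw0, hwd, x₀, hx₀⟩ := data_place hV hP hPne hPn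
    (none : Option (Fin k × Fin M × Bool)) (∑ z, ℓ₁ z)
  have hlt : ∀ z s, s < ℓ₁ z → s < ∑ z, ℓ₁ z := fun z s hs =>
    lt_of_lt_of_le hs (Finset.single_le_sum (f := ℓ₁) (fun _ _ => Nat.zero_le _)
      (Finset.mem_univ z))
  obtain ⟨B₁, hB0, hB1⟩ : ∃ B₁ : Option (Fin k × Fin M × Bool) → Set X, B₁ none = P ∧
      ∀ ι, B₁ (some ι) = A ι.2.1 := ⟨fun z => z.elim P (fun ι => A ι.2.1), rfl, fun _ => rfl⟩
  have hB₁ : ∀ z, B₁ z ⊆ P := by
    rintro (_ | ι)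
    · rw [hB0]
    · rw [hB1]; exact (hφ ι.2.1).2.2.2.2
  have hB₁c : ∀ z, IsClopen (B₁ z) := by
    rintro (_ | ι)
    · rw [hB0]; exact hP
    · rw [hB1]; exact (hφ ι.2.1).2.2.1
  have hwd' : ∀ z s z' s', s < ℓ₁ z → s' < ℓ₁ z' → (z = z' → s ≠ s') →
      Disjoint (w z s '' B₁ z) (w z' s' '' B₁ z') := by
    intro z s z' s' hs hs' hne
    exact (hwd z s z' s' (hlt z s hs) (hlt z' s' hs') hne).mono (image_mono (hB₁ z))
      (image_mono (hB₁ z'))
  obtain ⟨U, hUdef⟩ : ∃ U : Set X, U = ⋃ z, ⋃ s : Fin (ℓ₁ z), w z s '' B₁ z := ⟨_, rfl⟩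
  have hUm : ∀ x, x ∈ U ↔ ∃ z, ∃ s < ℓ₁ z, x ∈ w z s '' B₁ z := by
    intro x
    rw [hUdef]
    simp only [mem_iUnion]
    constructor
    · rintro ⟨z, s, hx⟩
      exact ⟨z, s, s.2, hx⟩
    · rintro ⟨z, s, hs, hx⟩
      exact ⟨z, ⟨s, hs⟩, hx⟩
  have hU : IsClopen U := by
    rw [hUdef]
    exact isClopen_iUnion_of_finite fun z => isClopen_iUnion_of_finite fun s =>
      image_clopen _ (hB₁c z)
  have hpos : ∀ z, Fintype.card (Fin k × Fin M × Bool) + k + 3 ≤ ℓ₁ z := by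
    intro z
    rw [hℓ₁]
    exact hL1 _
  have hPU : P ⊆ U := by
    intro x hx
    rw [hUm]
    refine ⟨none, 0, lt_of_lt_of_le (by omega) (hpos none), ?_⟩
    rw [hw0, hB0]
    exact ⟨x, hx, rfl⟩
  have hx₀U : x₀ ∈ Uᶜ := by
    intro h
    rw [hUm] at h
    obtain ⟨z, s, hs, hx⟩ := h
    exact hx₀ z s (hlt z s hs) (image_mono (hB₁ z) hx)
  have hUne : Uᶜ ≠ univ := by
    intro h
    obtain ⟨y, hy⟩ := hPn
    have : y ∈ Uᶜ := h ▸ mem_univ y
    exact this (hPU hy)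
  obtain ⟨a, b, N, haG, hbG, hN, hNn, hab1, hab2, hab3, hab4⟩ := h3 G hV Uᶜ hU.compl
    ⟨x₀, hx₀U⟩ hUne n q
  have haU : ∀ s ≤ q * n, ∀ x ∈ a s '' Uᶜ, x ∉ U := fun s hs x hx =>
    (hab4 x).2 (Or.inl ⟨s, hs, hx⟩)
  have hbU : ∀ s < q, ∀ x ∈ b s '' N, x ∉ U := fun s hs x hx =>
    (hab4 x).2 (Or.inr ⟨s, hs, hx⟩)
  obtain ⟨ℓ₂, hℓa, hℓb, hℓc⟩ : ∃ ℓ₂ : Option (Fin k × Fin M × Bool) ⊕ Bool → ℕ,
      (∀ z, ℓ₂ (Sum.inl z) = ℓ₁ z) ∧ ℓ₂ (Sum.inr false) = q * n + 1 ∧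
      ℓ₂ (Sum.inr true) = q :=
    ⟨Sum.elim ℓ₁ (fun b => if b then q else q * n + 1), fun _ => rfl, rfl, rfl⟩
  obtain ⟨B₂, hBa, hBb, hBc⟩ : ∃ B₂ : Option (Fin k × Fin M × Bool) ⊕ Bool → Set X,
      (∀ z, B₂ (Sum.inl z) = B₁ z) ∧ B₂ (Sum.inr false) = Uᶜ ∧
      B₂ (Sum.inr true) = N :=
    ⟨Sum.elim B₁ (fun b => if b then N else Uᶜ), fun _ => rfl, rfl, rfl⟩
  obtain ⟨w₂, hwa, hwb, hwc⟩ : ∃ w₂ : Option (Fin k × Fin M × Bool) ⊕ Bool → ℕ → (X ≃ₜ X),
      (∀ z, w₂ (Sum.inl z) = w z) ∧ w₂ (Sum.inr false) = a ∧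
      w₂ (Sum.inr true) = b :=
    ⟨Sum.elim w (fun t => if t then b else a), fun _ => rfl, rfl, rfl⟩
  have hLE : ∀ z, Fintype.card (Fin k × Fin M × Bool) + k + 3 ≤ ℓ₂ z := by
    rintro (z | (_ | _))
    · rw [hℓa]; exact hpos z
    · rw [hℓb]; exact hL5
    · rw [hℓc]; exact hL3
  have hdis2 : ∀ z s z' s', s < ℓ₂ z → s' < ℓ₂ z' → (z = z' → s ≠ s') →
      Disjoint (w₂ z s '' B₂ z) (w₂ z' s' '' B₂ z') := by
    have hmix : ∀ z s s' b, s < ℓ₁ z → s' < ℓ₂ (Sum.inr b) →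
        Disjoint (w z s '' B₁ z) (w₂ (Sum.inr b) s' '' B₂ (Sum.inr b)) := by
      intro z s s' b hs hs'
      rw [Set.disjoint_left]
      intro x hx hx'
      have hxU : x ∈ U := (hUm x).2 ⟨z, s, hs, hx⟩
      cases b
      · rw [hℓb] at hs'
        rw [hwb, hBb] at hx'
        exact haU s' (by omega) x hx' hxU
      · rw [hℓc] at hs'
        rw [hwc, hBc] at hx'
        exact hbU s' hs' x hx' hxU
    rintro (z | c) s (z' | c') s' hs hs' hne
    · rw [hℓa] at hs hs'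
      rw [hwa, hwa, hBa, hBa]
      exact hwd' z s z' s' hs hs' (fun h => hne (by rw [h]))
    · rw [hℓa] at hs
      rw [hwa, hBa]
      exact hmix z s s' c' hs hs'
    · rw [hℓa] at hs'
      rw [hwa, hBa]
      exact (hmix z' s' s c hs' hs).symm
    · cases c <;> cases c'
      · rw [hℓb] at hs hs'
        rw [hwb, hBb]
        exact hab1 s (by omega) s' (by omega) (hne rfl)
      · rw [hℓb] at hs
        rw [hℓc] at hs'
        rw [hwb, hBb, hwc, hBc]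
        exact hab3 s (by omega) s' hs'
      · rw [hℓc] at hs
        rw [hℓb] at hs'
        rw [hwb, hBb, hwc, hBc]
        exact (hab3 s' (by omega) s hs).symm
      · rw [hℓc] at hs hs'
        rw [hwc, hBc]
        exact hab2 s hs s' hs' (hne rfl)
  have hcov : ∀ x, ∃ z, ∃ s < ℓ₂ z, x ∈ w₂ z s '' B₂ z := by
    intro x
    by_cases hx : x ∈ U
    · obtain ⟨z, s, hs, hx⟩ := (hUm x).1 hx
      refine ⟨Sum.inl z, s, ?_, ?_⟩
      · rw [hℓa]; exact hs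
      · rw [hwa, hBa]; exact hx
    · rcases (hab4 x).1 hx with ⟨s, hs, hx⟩ | ⟨s, hs, hx⟩
      · refine ⟨Sum.inr false, s, ?_, ?_⟩
        · rw [hℓb]; omega
        · rw [hwb, hBb]; exact hx
      · refine ⟨Sum.inr true, s, ?_, ?_⟩
        · rw [hℓc]; exact hs
        · rw [hwc, hBc]; exact hx
  have hodd : ∀ z, Odd (ℓ₂ z) := by
    rintro (z | (_ | _))
    · rw [hℓa, hℓ₁]; exact hL2 _
    · rw [hℓb]; exact hL6
    · rw [hℓc]; exact hL4
  have hcop : ∀ z z', z ≠ z' → Nat.Coprime (ℓ₂ z) (ℓ₂ z') := by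
    rintro (z | (_ | _)) (z' | (_ | _)) hne
    · rw [hℓa, hℓa, hℓ₁, hℓ₁]
      refine hL7 _ _ fun h => hne ?_
      rw [(Fintype.equivFin _).injective h]
    · rw [hℓa, hℓb, hℓ₁]; exact hL9 _
    · rw [hℓa, hℓc, hℓ₁]; exact hL8 _
    · rw [hℓa, hℓb, hℓ₁]; exact (hL9 _).symm
    · exact absurd rfl hne
    · rw [hℓb, hℓc]; exact hL10.symm
    · rw [hℓa, hℓc, hℓ₁]; exact (hL8 _).symm
    · rw [hℓb, hℓc]; exact hL10
    · exact absurd rfl hne
  obtain ⟨c, σ, hcG, hcper, hcimg, hcfix, hσG, hσ⟩ := data_core hV hS h1 h2 ℓ₂ B₂ w₂ hodd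
    (by
      rintro (z | (_ | _))
      · rw [hBa]; exact hB₁c z
      · rw [hBb]; exact hU.compl
      · rw [hBc]; exact hN)
    (by
      rintro (z | (_ | _)) s
      · rw [hwa]; exact hwG z s
      · rw [hwb]; exact haG s
      · rw [hwc]; exact hbG s) hcop hdis2
  exact ⟨{
    M := M
    P := P
    φ := φ
    A := A
    c := fun z => c (data_cl z)
    ℓ := fun z => ℓ₂ (data_cl z)
    B := fun z => w₂ (data_cl z) 0 '' B₂ (data_cl z)
    e := fun ι => w (some ι) 0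
    σ := σ
    Pcl := hP
    Pne := hPne
    Pnon := hPn
    φG := fun m => (hφ m).1
    φP := fun m => (hφ m).2.1
    Acl := fun m => (hφ m).2.2.1
    Atri := fun m => (hφ m).2.2.2.1
    AP := fun m => (hφ m).2.2.2.2
    alt := halt
    cG := fun z => hcG _
    Bcl := by
      intro z
      refine image_clopen _ ?_
      rcases data_cl z with z | (_ | _)
      · rw [hBa]; exact hB₁c z
      · rw [hBb]; exact hU.compl
      · rw [hBc]; exact hN
    per := fun z => hcper _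
    disj := by
      intro z s z' s' hs hs' hne
      rw [hcimg _ s hs, hcimg _ s' hs']
      exact hdis2 _ s _ s' hs hs' (fun h => hne (data_cl_inj h))
    cov := by
      intro x
      obtain ⟨z, s, hs, hx⟩ := hcov x
      obtain ⟨z, rfl⟩ := data_cl_surj z
      refine ⟨z, s, hs, ?_⟩
      rw [hcimg _ s hs]
      exact hx
    fix := by
      intro z x hx
      refine hcfix _ x fun s hs => ?_
      have := hx s hs
      rw [hcimg _ s hs] at this
      exact this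
    main := by
      show w₂ (Sum.inl none) 0 '' B₂ (Sum.inl none) = P
      rw [hwa, hBa, hw0, hB0]
      exact (Sup.one P).image
    lenmain := by
      have := hLE (data_cl none)
      show _ < ℓ₂ (data_cl none)
      omega
    len := by
      intro z
      have := hLE (data_cl z)
      show _ ≤ ℓ₂ (data_cl z)
      omega
    eG := fun ι => hwG _ _
    eng := by
      intro ι
      show w₂ (Sum.inl (some ι)) 0 '' B₂ (Sum.inl (some ι)) = _
      rw [hwa, hBa, hB1]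
    non := by
      show (w₂ (Sum.inr false) 0 '' B₂ (Sum.inr false)).Nonempty
      rw [hwb, hBb]
      exact ⟨_, x₀, hx₀U, rfl⟩
    σG := hσG
    pow := fun z => hσ _ }⟩

end Pool.Agent.Q27.VS
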