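import Pool.Agent.Q27.VS.Stm

/-! Project VS (helper27), job BASE. -/

set_option autoImplicit false

open Set Topology Filter

namespace Pool.Agent.Q27.VS

variable {X : Type} [TopologicalSpace X]

theorem base_loc_comp {H : Subgroup (X ≃ₜ X)} {f g : X → X} (hf : Loc H f) (hg : Loc H g) :
    Loc H (f ∘ g) := by
  intro x
  obtain ⟨b, hb, hb'⟩ := hg x
  obtain ⟨a, ha, ha'⟩ := hf (g x)
  refine ⟨a * b, H.mul_mem ha hb, ?_⟩
  have h0 : g x = b x := hb'.self_of_nhds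
  rw [h0] at ha'
  have h1 : ∀ᶠ y in 𝓝 x, f (b y) = a (b y) := b.continuous.continuousAt.eventually ha'
  filter_upwards [h1, hb'] with y hy hy'
  rw [Function.comp_apply, hy', hy]
  rfl

theorem base_loc_cont {H : Subgroup (X ≃ₜ X)} {f : X → X} (hf : Loc H f) : Continuous f := by
  rw [continuous_iff_continuousAt]
  intro x
  obtain ⟨a, _, ha⟩ := hf x
  have h0 : f =ᶠ[𝓝 x] a := ha
  exact (a.continuous.continuousAt).congr h0.symm

open Classical in
theorem base_loc_piece {H : Subgroup (X ≃ₜ X)} {f g : X → X} (hf : Loc H f) (hg : Loc H g)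
    {A : Set X} (hA : IsClopen A) : Loc H (fun x => if x ∈ A then f x else g x) := by
  intro x
  by_cases hx : x ∈ A
  · obtain ⟨a, ha, ha'⟩ := hf x
    refine ⟨a, ha, ?_⟩
    filter_upwards [ha', hA.2.mem_nhds hx] with y hy hyA
    rw [if_pos hyA, hy]
  · obtain ⟨a, ha, ha'⟩ := hg x
    refine ⟨a, ha, ?_⟩
    filter_upwards [ha', hA.1.isOpen_compl.mem_nhds hx] with y hy hyA
    rw [if_neg hyA, hy]

theorem base_loc_of_mem {H : Subgroup (X ≃ₜ X)} {h : X ≃ₜ X} (hh : h ∈ H) : Loc H h :=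
  fun _ => ⟨h, hh, Eventually.of_forall fun _ => rfl⟩

theorem base_loc_top (h : X ≃ₜ X) : Loc (⊤ : Subgroup (X ≃ₜ X)) h :=
  base_loc_of_mem (Subgroup.mem_top h)

theorem base_loc_mono {H K : Subgroup (X ≃ₜ X)} (hHK : H ≤ K) {f : X → X} (hf : Loc H f) :
    Loc K f := fun x => by
  obtain ⟨a, ha, ha'⟩ := hf x
  exact ⟨a, hHK ha, ha'⟩

theorem base_fin {H : Type} [Group H] (T : Set H) {x : H} (hx : x ∈ Subgroup.closure T) :
    ∃ F : Finset H, (F : Set H) ⊆ T ∧ x ∈ Subgroup.closure (F : Set H) := by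
  classical
  refine Subgroup.closure_induction (p := fun x _ => ∃ F : Finset H, (F : Set H) ⊆ T ∧
    x ∈ Subgroup.closure (F : Set H)) ?_ ?_ ?_ ?_ hx
  · intro x hx
    exact ⟨{x}, by simpa using hx, Subgroup.subset_closure (by simp)⟩
  · exact ⟨∅, by simp, Subgroup.one_mem _⟩
  · rintro x y _ _ ⟨F, hF, hF'⟩ ⟨E, hE, hE'⟩
    refine ⟨F ∪ E, by simp [hF, hE], Subgroup.mul_mem _ ?_ ?_⟩
    · exact Subgroup.closure_mono (by simp) hF'
    · exact Subgroup.closure_mono (by simp) hE'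
  · rintro x _ ⟨F, hF, hF'⟩
    exact ⟨F, hF, Subgroup.inv_mem _ hF'⟩

theorem base_fin2 {H : Type} [Group H] (T : Set H) (G : Subgroup H) (hG : G.FG)
    (hT : G = Subgroup.closure T) :
    ∃ F : Finset H, (F : Set H) ⊆ T ∧ G = Subgroup.closure (F : Set H) := by
  classical
  obtain ⟨S, hS⟩ := hG
  have h1 : ∀ s ∈ S, ∃ F : Finset H, (F : Set H) ⊆ T ∧ s ∈ Subgroup.closure (F : Set H) := by
    intro s hs
    refine base_fin T ?_
    rw [← hT, ← hS]
    exact Subgroup.subset_closure hs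
  choose! F hF hF' using h1
  refine ⟨S.biUnion F, ?_, ?_⟩
  · intro x hx
    rw [Finset.coe_biUnion] at hx
    simp only [mem_iUnion] at hx
    obtain ⟨s, hs, hx⟩ := hx
    exact hF s hs hx
  · apply le_antisymm
    · rw [← hS, Subgroup.closure_le]
      intro s hs
      refine Subgroup.closure_mono ?_ (hF' s hs)
      intro x hx
      rw [Finset.coe_biUnion]
      simp only [mem_iUnion]
      exact ⟨s, hs, hx⟩
    · rw [hT, Subgroup.closure_le]
      intro x hx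
      rw [Finset.coe_biUnion] at hx
      simp only [mem_iUnion] at hx
      obtain ⟨s, hs, hx⟩ := hx
      exact Subgroup.subset_closure (hF s hs hx)

/-- the embedding of the whole space in a proper clopen set, with its inverse -/
theorem base_emb [CSp X] {G : Subgroup (X ≃ₜ X)} (hV : Vig G) :
    ∃ (P : Set X) (κ ι : X → X), IsClopen P ∧ P ≠ univ ∧ P.Nonempty ∧ Loc G κ ∧ Loc G ι ∧
      (∀ x, κ x ∈ P) ∧ (∀ x, ι (κ x) = x) ∧ (∀ y ∈ P, κ (ι y) = y) := by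
  classical
  obtain ⟨Y, hY1, hY2, _, hY4, hY5⟩ := pieces (X := X) 2 isOpen_univ
    (@univ_nonempty X CSp.ne)
  obtain ⟨A₀, hA, hAn, _, hAc⟩ := clopen_proper (X := X) isOpen_univ
    (@univ_nonempty X CSp.ne)
  have hYne : ∀ i, Y i ≠ univ := by
    intro i h
    obtain ⟨x, _, hx⟩ := hY5
    apply hx
    rw [mem_iUnion]
    exact ⟨i, h ▸ mem_univ x⟩
  have hAne : A₀ ≠ univ := by
    intro h
    obtain ⟨x, _, hx⟩ := hAc
    exact hx (h ▸ mem_univ x)
  have hAcn : (A₀ᶜ).Nonempty := by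
    obtain ⟨x, _, hx⟩ := hAc
    exact ⟨x, hx⟩
  have hAcne : A₀ᶜ ≠ univ := by
    intro h
    obtain ⟨x, hx⟩ := hAn
    have : x ∈ A₀ᶜ := h ▸ mem_univ x
    exact this hx
  obtain ⟨a, haG, haY, _⟩ := hV univ A₀ (Y 0) isClopen_univ hA (hY1 0) (subset_univ _)
    (subset_univ _) hAn (hY2 0) hAne (hYne 0)
  obtain ⟨b, hbG, hbY, _⟩ := hV univ A₀ᶜ (Y 1) isClopen_univ hA.compl (hY1 1) (subset_univ _)
    (subset_univ _) hAcn (hY2 1) hAcne (hYne 1)
  have hdis : Disjoint (a '' A₀) (b '' A₀ᶜ) :=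
    (hY4 0 1 (by decide)).mono haY hbY
  refine ⟨a '' A₀ ∪ b '' A₀ᶜ, fun x => if x ∈ A₀ then a x else b x,
    fun y => if y ∈ a '' A₀ then a⁻¹ y else b⁻¹ y, (image_clopen a hA).union
    (image_clopen b hA.compl), ?_, ?_, base_loc_piece (base_loc_of_mem haG) (base_loc_of_mem hbG)
    hA, base_loc_piece (base_loc_of_mem (G.inv_mem haG)) (base_loc_of_mem (G.inv_mem hbG))
    (image_clopen a hA), ?_, ?_, ?_⟩
  · intro h
    obtain ⟨x, _, hx⟩ := hY5
    apply hx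
    have : x ∈ a '' A₀ ∪ b '' A₀ᶜ := h ▸ mem_univ x
    rw [mem_iUnion]
    rcases this with h | h
    · exact ⟨0, haY h⟩
    · exact ⟨1, hbY h⟩
  · obtain ⟨x, hx⟩ := hAn
    exact ⟨a x, Or.inl ⟨x, hx, rfl⟩⟩
  · intro x
    by_cases hx : x ∈ A₀
    · simp only [if_pos hx]
      exact Or.inl ⟨x, hx, rfl⟩
    · simp only [if_neg hx]
      exact Or.inr ⟨x, hx, rfl⟩
  · intro x
    by_cases hx : x ∈ A₀
    · simp only [if_pos hx]
      rw [if_pos ⟨x, hx, rfl⟩]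
      simp
    · simp only [if_neg hx]
      rw [if_neg (Set.disjoint_right.1 hdis ⟨x, hx, rfl⟩)]
      simp
  · rintro y (⟨x, hx, rfl⟩ | ⟨x, hx, rfl⟩)
    · have e : a⁻¹ (a x) = x := by simp
      have hax : a x ∈ a '' A₀ := ⟨x, hx, rfl⟩
      dsimp only
      rw [if_pos hax, e, if_pos hx]
    · dsimp only
      rw [if_neg (Set.disjoint_right.1 hdis ⟨x, hx, rfl⟩)]
      have e : b⁻¹ (b x) = x := by simp
      rw [e, if_neg hx]

open Classical in
theorem base_push {G : Subgroup (X ≃ₜ X)} {P : Set X} {κ ι : X → X} (hP : IsClopen P)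
    (hκ : Loc G κ) (hι : Loc G ι) (hκP : ∀ x, κ x ∈ P) (hικ : ∀ x, ι (κ x) = x)
    (hκι : ∀ y ∈ P, κ (ι y) = y) (h : X ≃ₜ X) :
    ∃ k : X ≃ₜ X, (∀ x, k (κ x) = κ (h x)) ∧ (∀ y, y ∉ P → k y = y) ∧ (h ∈ G → Loc G k) := by
  have key : ∀ (H : Subgroup (X ≃ₜ X)), G ≤ H → ∀ (u : X ≃ₜ X), u ∈ H →
      Loc H (fun y => if y ∈ P then (κ ∘ u ∘ ι) y else (1 : X ≃ₜ X) y) := by
    intro H hGH u hu
    exact base_loc_piece (base_loc_comp (base_loc_mono hGH hκ) (base_loc_comp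
      (base_loc_of_mem hu) (base_loc_mono hGH hι))) (base_loc_of_mem H.one_mem) hP
  have hinv : ∀ (u v : X ≃ₜ X), (∀ x, v (u x) = x) → ∀ y,
      (fun y => if y ∈ P then (κ ∘ v ∘ ι) y else (1 : X ≃ₜ X) y)
        ((fun y => if y ∈ P then (κ ∘ u ∘ ι) y else (1 : X ≃ₜ X) y) y) = y := by
    intro u v huv y
    by_cases hy : y ∈ P
    · simp only [if_pos hy, Function.comp_apply]
      rw [if_pos (hκP _), hικ, huv, hκι y hy]
    · simp only [if_neg hy, Homeomorph.one_apply]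
  refine ⟨⟨⟨fun y => if y ∈ P then (κ ∘ h ∘ ι) y else (1 : X ≃ₜ X) y,
    fun y => if y ∈ P then (κ ∘ h.symm ∘ ι) y else (1 : X ≃ₜ X) y,
    hinv h h.symm (fun x => h.symm_apply_apply x),
    hinv h.symm h (fun x => h.apply_symm_apply x)⟩,
    base_loc_cont (key ⊤ le_top h (Subgroup.mem_top _)),
    base_loc_cont (key ⊤ le_top h.symm (Subgroup.mem_top _))⟩, ?_, ?_, ?_⟩
  · intro x
    show (if κ x ∈ P then (κ ∘ h ∘ ι) (κ x) else (1 : X ≃ₜ X) (κ x)) = κ (h x)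
    rw [if_pos (hκP x), Function.comp_apply, Function.comp_apply, hικ]
  · intro y hy
    show (if y ∈ P then (κ ∘ h ∘ ι) y else (1 : X ≃ₜ X) y) = y
    rw [if_neg hy, Homeomorph.one_apply]
  · intro hh
    exact key G le_rfl h hh

theorem base_pull {G : Subgroup (X ≃ₜ X)} {P : Set X} {κ ι : X → X}
    (hκ : Loc G κ) (hι : Loc G ι) (hκP : ∀ x, κ x ∈ P) (hικ : ∀ x, ι (κ x) = x)
    (hκι : ∀ y ∈ P, κ (ι y) = y) {t' : X ≃ₜ X} (ht' : t' ∈ G) (hs : Sup t' P) :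
    ∃ t : X ≃ₜ X, (∀ x, κ (t x) = t' (κ x)) ∧ Loc G t := by
  have key : ∀ u ∈ G, Loc G (ι ∘ u ∘ κ) := fun u hu =>
    base_loc_comp hι (base_loc_comp (base_loc_of_mem hu) hκ)
  have hk : ∀ u : X ≃ₜ X, Sup u P → ∀ x, κ ((ι ∘ u ∘ κ) x) = u (κ x) := by
    intro u hu x
    rw [Function.comp_apply, Function.comp_apply, hκι _ (hu.mem (hκP x))]
  have hinv : ∀ (u v : X ≃ₜ X), Sup u P → (∀ x, v (u x) = x) → ∀ y,
      (ι ∘ v ∘ κ) ((ι ∘ u ∘ κ) y) = y := by
    intro u v hu huv y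
    show ι (v (κ ((ι ∘ u ∘ κ) y))) = y
    rw [hk u hu, huv, hικ]
  refine ⟨⟨⟨ι ∘ t' ∘ κ, ι ∘ (t'⁻¹ : X ≃ₜ X) ∘ κ, hinv t' t'⁻¹ hs (fun x => by simp),
    hinv t'⁻¹ t' hs.inv (fun x => by simp)⟩, base_loc_cont (key t' ht'),
    base_loc_cont (key t'⁻¹ (G.inv_mem ht'))⟩, hk t' hs, key t' ht'⟩

theorem base (X : Type) [TopologicalSpace X] [CSp X] (h0 : S_tri X) (h1 : S_alt X) :
    S_base X := by
  classical
  intro G hV hS hfg
  obtain ⟨P, κ, ι, hP, hPne, hPn, hκ, hι, hκP, hικ, hκι⟩ := base_emb hV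
  have hκinj : ∀ x y, κ x = κ y → x = y := by
    intro x y h
    rw [← hικ x, ← hικ y, h]
  obtain ⟨F, hF, hGF⟩ := base_fin2 _ G hfg (h1.2 G hV hS).symm
  choose Ks hK1 hK2 hK3 using base_push hP hκ hι hκP hικ hκι
  have hext : ∀ k k' : X ≃ₜ X, (∀ x, k (κ x) = k' (κ x)) → (∀ y, y ∉ P → k y = k' y) →
      k = k' := by
    intro k k' h h'
    ext y
    by_cases hy : y ∈ P
    · rw [← hκι y hy]; exact h _
    · exact h' y hy
  have hKone : Ks 1 = 1 := by
    refine hext _ _ (fun x => ?_) (fun y hy => ?_)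
    · rw [hK1]; rfl
    · rw [hK2 _ _ hy]; rfl
  have hKmul : ∀ u v, Ks (u * v) = Ks u * Ks v := by
    intro u v
    refine hext _ _ (fun x => ?_) (fun y hy => ?_)
    · rw [hK1, Homeomorph.mul_apply, Homeomorph.mul_apply, hK1, hK1]
    · rw [hK2 _ _ hy, Homeomorph.mul_apply, hK2 _ _ hy, hK2 _ _ hy]
  let Kh : (X ≃ₜ X) →* (X ≃ₜ X) := ⟨⟨Ks, hKone⟩, hKmul⟩
  -- pushing a three-cycle
  have hpushtri : ∀ (t : X ≃ₜ X) (A : Set X), IsTri t A → IsTri (Ks t) (κ '' A) := by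
    intro t A ht
    constructor
    · rintro _ ⟨a, ha, rfl⟩ ⟨b, hb, hab⟩
      rw [hK1] at hab
      exact ht.d1 a ha (hκinj _ _ hab ▸ hb)
    · rintro _ ⟨a, ha, rfl⟩ ⟨b, hb, hab⟩
      rw [hK1, hK1] at hab
      exact ht.d2 a ha (hκinj _ _ hab ▸ hb)
    · rintro _ ⟨a, ha, rfl⟩
      rw [hK1, hK1, hK1, ht.cyc a ha]
    · intro x hx h1 h2
      by_cases hxP : x ∈ P
      · obtain ⟨y, rfl⟩ : ∃ y, κ y = x := ⟨ι x, hκι x hxP⟩
        rw [hK1, ht.out y (fun hy => hx ⟨y, hy, rfl⟩)]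
        · intro a ha hya
          exact h1 (κ a) ⟨a, ha, rfl⟩ (by rw [hK1, hya])
        · intro a ha hya
          exact h2 (κ a) ⟨a, ha, rfl⟩ (by rw [hK1, hK1, hya])
      · exact hK2 _ _ hxP
  have hclo : ∀ A : Set X, IsClopen A → IsClopen (κ '' A) := by
    intro A hA
    have e : κ '' A = P ∩ ι ⁻¹' A := by
      ext y
      constructor
      · rintro ⟨x, hx, rfl⟩
        exact ⟨hκP x, by rw [mem_preimage, hικ]; exact hx⟩
      · rintro ⟨hy, hy'⟩
        exact ⟨ι y, hy', hκι y hy⟩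
    rw [e]
    exact hP.inter (hA.preimage (base_loc_cont hι))
  have hF' : ∀ t ∈ F, t ∈ G ∧ ∃ A, IsClopen A ∧ IsTri t A := by
    intro t ht
    have := hF ht
    exact ⟨this.1, this.2.2⟩
  choose! hFG A hAcl hAtri using hF'
  refine ⟨P, F.card, fun m => Ks (F.equivFin.symm m), fun m => κ '' A (F.equivFin.symm m), hP,
    hPne, hPn, fun m => ⟨?_, ?_, ?_, ?_, ?_⟩, ?_⟩
  · have hm := (F.equivFin.symm m).2
    exact h0 G hV hS _ (hK3 _ (hFG _ hm)) _ (hclo _ (hAcl _ hm)) (hpushtri _ _ (hAtri _ hm))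
  · intro x hx
    exact hK2 _ _ hx
  · exact hclo _ (hAcl _ (F.equivFin.symm m).2)
  · exact hpushtri _ _ (hAtri _ (F.equivFin.symm m).2)
  · rintro _ ⟨x, _, rfl⟩
    exact hκP x
  · unfold Alt
    rw [Subgroup.closure_le]
    rintro t' ⟨ht', hs', A', hA', htri'⟩
    obtain ⟨t, ht, htL⟩ := base_pull hκ hι hκP hικ hκι ht' hs'
    have hA'P : ∀ a ∈ A', a ∈ P := by
      intro a ha
      by_contra h
      have h2 := htri'.d1 a ha
      rw [hs' a h] at h2
      exact h2 ha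
    have htri : IsTri t (κ ⁻¹' A') := by
      constructor
      · intro x hx hx'
        rw [mem_preimage, ht] at hx'
        exact htri'.d1 _ hx hx'
      · intro x hx hx'
        rw [mem_preimage, ht, ht] at hx'
        exact htri'.d2 _ hx hx'
      · intro x hx
        apply hκinj
        rw [ht, ht, ht]
        exact htri'.cyc _ hx
      · intro x hx h2 h3
        apply hκinj
        rw [ht]
        apply htri'.out _ hx
        · intro a ha hxa
          apply h2 (ι a)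
          · rw [mem_preimage, hκι a (hA'P a ha)]; exact ha
          · apply hκinj
            rw [ht, hκι a (hA'P a ha), hxa]
        · intro a ha hxa
          apply h3 (ι a)
          · rw [mem_preimage, hκι a (hA'P a ha)]; exact ha
          · apply hκinj
            rw [ht, ht, hκι a (hA'P a ha), hxa]
    have htG : t ∈ G := h0 G hV hS t htL _ (hA'.preimage (base_loc_cont hκ)) htri
    have hKt : t' = Ks t := by
      refine hext _ _ (fun x => ?_) (fun y hy => ?_)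
      · rw [hK1, ht]
      · rw [hK2 _ _ hy, hs' y hy]
    rw [hGF] at htG
    have h2 : Kh t ∈ (Subgroup.closure (F : Set (X ≃ₜ X))).map Kh := ⟨t, htG, rfl⟩
    rw [MonoidHom.map_closure] at h2
    rw [hKt]
    refine Subgroup.closure_mono ?_ h2
    rintro _ ⟨u, hu, rfl⟩
    refine ⟨F.equivFin ⟨u, hu⟩, ?_⟩
    show Ks (F.equivFin.symm (F.equivFin ⟨u, hu⟩)) = Ks u
    rw [Equiv.symm_apply_apply]

end Pool.Agent.Q27.VS
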